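import Pool.Agent.H654R5.PT.Stm

/-!
# Every item finally has a living cell
-/

namespace Pool.Agent.H654R5.PT.GAM

open Pool.Agent.NPC

/-- after an item has been processed, it has a living cell -/
lemma living (hI : S_INV) (hC : S_CAP) (a t : ℕ → Option (List Bool)) (ha : Few a) (e : List Bool)
    (n k : ℕ) (hk : k < n) (hk' : t k = some e) (hn : t n = some e) :
    ∃ c ∈ cands e, (c, e) ∈ run a t (n + 1) ∧ deadB a n c = false := by
  obtain ⟨h1, h2, h3, h4, h5⟩ := hI a t
  have hrun : run a t (n + 1) = stepS a t n (run a t n) := rfl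
  unfold stepS at hrun
  rw [hn] at hrun
  simp only at hrun
  by_cases hany : ((run a t n).any (fun p => decide (p.2 = e) && !deadB a n p.1)) = true
  · rw [if_pos hany] at hrun
    rw [List.any_eq_true] at hany
    obtain ⟨p, hp, hp'⟩ := hany
    simp only [Bool.and_eq_true, decide_eq_true_eq, Bool.not_eq_true'] at hp'
    obtain ⟨rfl, hd⟩ := hp'
    refine ⟨p.1, (h4 n p hp).1, ?_, hd⟩
    rw [hrun]
    exact hp
  · rw [if_neg hany] at hrun
    obtain ⟨c, hc, hb⟩ := hC a t ha n e ⟨k, hk, hk'⟩
    have hc2 : (!deadB a n c && !(run a t n).any (fun p => decide (p.1 = c))) = true := by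
      unfold Blk at hb
      push Not at hb
      obtain ⟨hb1, hb2⟩ := hb
      simp only [Bool.and_eq_true, Bool.not_eq_true', List.any_eq_false, decide_eq_true_eq]
      exact ⟨by simpa using hb1, fun p hp => hb2 p hp⟩
    cases hf : (cands e).find?
        (fun c => !deadB a n c && !(run a t n).any (fun p => decide (p.1 = c))) with
    | none =>
      rw [List.find?_eq_none] at hf
      exact absurd hc2 (hf c hc)
    | some c' =>
      rw [hf] at hrun
      have h6 := List.find?_some hf
      simp only [Bool.and_eq_true, Bool.not_eq_true'] at h6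
      refine ⟨c', List.mem_of_find?_eq_some hf, ?_, h6.1⟩
      rw [hrun]
      exact List.mem_cons_self

theorem GAM_proof (hI : S_INV) (hC : S_CAP) : S_GAM := by
  intro a t ha e he
  obtain ⟨h1, h2, h3, h4, h5⟩ := hI a t
  -- a time at which all cells which ever die are dead
  have hex : ∀ l : List (ℕ × List Bool), ∃ n1, ∀ c ∈ l, (∃ n, deadB a n c = true) →
      deadB a n1 c = true := by
    intro l
    induction l with
    | nil => exact ⟨0, fun c hc => absurd hc List.not_mem_nil⟩
    | cons c0 l ih =>
      obtain ⟨n1, hn1⟩ := ih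
      by_cases hd : ∃ n, deadB a n c0 = true
      · obtain ⟨n2, hn2⟩ := hd
        refine ⟨max n1 n2, fun c hc hc' => ?_⟩
        rw [List.mem_cons] at hc
        rcases hc with rfl | hc
        · exact h1 n2 _ c (le_max_right _ _) hn2
        · exact h1 n1 _ c (le_max_left _ _) (hn1 c hc hc')
      · refine ⟨n1, fun c hc hc' => ?_⟩
        rw [List.mem_cons] at hc
        rcases hc with rfl | hc
        · exact absurd hc' hd
        · exact hn1 c hc hc'
  obtain ⟨n1, hn1⟩ := hex (cands e)
  obtain ⟨k, -, hk⟩ := he 0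
  obtain ⟨n, hn, hn'⟩ := he (max n1 (k + 1))
  have hkn : k < n := by
    have := le_max_right n1 (k + 1)
    omega
  have hn1n : n1 ≤ n := (le_max_left n1 (k + 1)).trans hn
  obtain ⟨c, hc, hrun, hd⟩ := living hI hC a t ha e n k hkn hk hn'
  refine ⟨c, hc, n + 1, fun m hm => ⟨(h2 _ _ hm).subset hrun, ?_⟩⟩
  by_contra hcon
  have h6 : deadB a m c = true := by simpa using hcon
  have h7 := h1 n1 n c hn1n (hn1 c hc ⟨m, h6⟩)
  rw [h7] at hd
  exact absurd hd (by simp)

end Pool.Agent.H654R5.PT.GAM
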