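import Pool.Agent.H654R5.PT.Stm

/-!
# Invariants of the strategy
-/

namespace Pool.Agent.H654R5.PT.INV

open Pool.Agent.NPC

lemma spoiled_mono {a : ℕ → Option (List Bool)} {n m : ℕ} (h : n ≤ m) {w : List Bool}
    (hw : w ∈ spoiled a n) : w ∈ spoiled a m := by
  unfold spoiled at hw ⊢
  rw [List.mem_filterMap] at hw ⊢
  obtain ⟨k, hk, hk'⟩ := hw
  rw [List.mem_range] at hk
  exact ⟨k, List.mem_range.2 (by omega), hk'⟩

lemma dead_mono (a : ℕ → Option (List Bool)) (n m : ℕ) (c : ℕ × List Bool) (h : n ≤ m)
    (hd : deadB a n c = true) : deadB a m c = true := by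
  unfold deadB at hd ⊢
  rw [decide_eq_true_eq] at hd ⊢
  refine hd.trans_le (Nat.mul_le_mul_left 8 ?_)
  apply List.Sublist.length_le
  apply List.monotone_filter_right
  intro z hz
  rw [decide_eq_true_eq] at hz ⊢
  exact spoiled_mono h hz

lemma step_cases (a t : ℕ → Option (List Bool)) (n : ℕ)
    (S : List ((ℕ × List Bool) × List Bool)) : stepS a t n S = S ∨
    ∃ e c, t n = some e ∧ (∀ p ∈ S, p.2 = e → deadB a n p.1 = true) ∧
      (cands e).find? (fun c => !deadB a n c && !S.any (fun p => decide (p.1 = c))) = some c ∧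
      stepS a t n S = (c, e) :: S := by
  unfold stepS
  cases hte : t n with
  | none => exact Or.inl rfl
  | some e =>
    simp only
    by_cases hany : (S.any (fun p => decide (p.2 = e) && !deadB a n p.1)) = true
    · rw [if_pos hany]; exact Or.inl rfl
    · rw [if_neg hany]
      cases hf : (cands e).find? (fun c => !deadB a n c && !S.any (fun p => decide (p.1 = c))) with
      | none => exact Or.inl rfl
      | some c =>
        right
        refine ⟨e, c, rfl, ?_, hf, rfl⟩
        intro p hp hpe
        by_contra hcon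
        apply hany
        rw [List.any_eq_true]
        refine ⟨p, hp, ?_⟩
        simp only [Bool.not_eq_true] at hcon
        rw [hcon]
        simp [hpe]

lemma run_succ (a t : ℕ → Option (List Bool)) (n : ℕ) :
    run a t (n + 1) = stepS a t n (run a t n) := rfl

lemma run_suffix (a t : ℕ → Option (List Bool)) (n m : ℕ) (h : n ≤ m) :
    run a t n <:+ run a t m := by
  induction m, h using Nat.le_induction with
  | base => exact List.suffix_rfl
  | succ m hm ih =>
    refine ih.trans ?_
    rw [run_succ]
    rcases step_cases a t m (run a t m) with h1 | ⟨e, c, -, -, -, h1⟩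
    · rw [h1]
    · rw [h1]; exact List.suffix_cons _ _

lemma find_pred {a : ℕ → Option (List Bool)} {n : ℕ} {e : List Bool} {c : ℕ × List Bool}
    {S : List ((ℕ × List Bool) × List Bool)}
    (h : (cands e).find? (fun c => !deadB a n c && !S.any (fun p => decide (p.1 = c))) = some c) :
    deadB a n c = false ∧ ∀ p ∈ S, p.1 ≠ c := by
  have h1 := List.find?_some h
  simp only [Bool.and_eq_true, Bool.not_eq_true', List.any_eq_false, decide_eq_true_eq] at h1
  exact ⟨h1.1, fun p hp => h1.2 p hp⟩

lemma run_nodup (a t : ℕ → Option (List Bool)) (n : ℕ) : ((run a t n).map Prod.fst).Nodup := by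
  induction n with
  | zero => exact List.nodup_nil
  | succ n ih =>
    rw [run_succ]
    rcases step_cases a t n (run a t n) with h1 | ⟨e, c, -, -, hf, h1⟩
    · rw [h1]; exact ih
    · rw [h1, List.map_cons, List.nodup_cons]
      refine ⟨?_, ih⟩
      intro hmem
      rw [List.mem_map] at hmem
      obtain ⟨p, hp, hpc⟩ := hmem
      exact (find_pred hf).2 p hp hpc

lemma blk_mono (a t : ℕ → Option (List Bool)) (n m : ℕ) (h : n ≤ m) (c : ℕ × List Bool)
    (hb : Blk a t n c) : Blk a t m c := by
  rcases hb with hb | ⟨p, hp, hpc⟩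
  · exact Or.inl (dead_mono a n m c h hb)
  · exact Or.inr ⟨p, (run_suffix a t n m h).subset hp, hpc⟩

lemma lvls_sorted (m : ℕ) : (lvls m).Pairwise (fun x y => y < x) := by
  unfold lvls
  rw [List.pairwise_reverse]
  exact List.Pairwise.filter _ List.pairwise_lt_range

lemma cands_sorted (e : List Bool) : (cands e).Pairwise (fun x y => y.1 ≤ x.1) := by
  unfold cands
  rw [List.pairwise_flatMap]
  refine ⟨?_, ?_⟩
  · intro N _
    rw [List.pairwise_map]
    exact List.pairwise_of_forall (fun _ _ => le_rfl)
  · refine (lvls_sorted _).imp ?_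
    intro N N' hN x hx y hy
    rw [List.mem_map] at hx hy
    obtain ⟨_, _, rfl⟩ := hx
    obtain ⟨_, _, rfl⟩ := hy
    exact hN.le

lemma run_inv (a t : ℕ → Option (List Bool)) (n : ℕ) :
    ∀ p ∈ run a t n, p.1 ∈ cands p.2 ∧ (∃ k < n, t k = some p.2) ∧
    ∀ c ∈ cands p.2, p.1.1 < c.1 → Blk a t n c := by
  induction n with
  | zero => intro p hp; exact absurd hp List.not_mem_nil
  | succ n ih =>
    have hold : ∀ p ∈ run a t n, p.1 ∈ cands p.2 ∧ (∃ k < n + 1, t k = some p.2) ∧
        ∀ c ∈ cands p.2, p.1.1 < c.1 → Blk a t (n + 1) c := by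
      intro p hp
      obtain ⟨h1, ⟨k, hk, hk'⟩, h3⟩ := ih p hp
      exact ⟨h1, ⟨k, by omega, hk'⟩, fun c hc hlt => blk_mono a t n (n + 1) (by omega) c (h3 c hc hlt)⟩
    intro p hp
    rcases step_cases a t n (run a t n) with h1 | ⟨e, c, hte, hdead, hf, h1⟩
    · rw [run_succ, h1] at hp
      exact hold p hp
    · rw [run_succ, h1, List.mem_cons] at hp
      rcases hp with rfl | hp
      · refine ⟨List.mem_of_find?_eq_some hf, ⟨n, by omega, hte⟩, ?_⟩
        intro c' hc' hlt
        simp only at hc' hlt
        apply blk_mono a t n (n + 1) (by omega)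
        rw [List.find?_eq_some_iff_append] at hf
        obtain ⟨hc, as, bs, hab, has⟩ := hf
        have hs := cands_sorted e
        rw [hab] at hs hc'
        rw [List.mem_append, List.mem_cons] at hc'
        rcases hc' with hc' | rfl | hc'
        · have h2 := has c' hc'
          simp only [Bool.not_eq_true', Bool.and_eq_false_imp] at h2
          by_cases hd : deadB a n c' = true
          · exact Or.inl hd
          · have h3 := h2 (by simpa using hd)
            simp only [Bool.not_eq_false', List.any_eq_true, decide_eq_true_eq] at h3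
            exact Or.inr h3
        · exact absurd hlt (lt_irrefl _)
        · have h2 := (List.pairwise_append.1 hs).2.1
          rw [List.pairwise_cons] at h2
          have h3 := h2.1 c' hc'
          omega
      · exact hold p hp

lemma run_five (a t : ℕ → Option (List Bool)) (n : ℕ) (e : List Bool) :
    ∃ p : ℕ × List Bool, ∀ q ∈ run a t n, q.2 = e → q.1 ≠ p → deadB a n q.1 = true := by
  induction n with
  | zero => exact ⟨(0, []), fun q hq => absurd hq List.not_mem_nil⟩
  | succ n ih =>
    obtain ⟨p, hp⟩ := ih
    rcases step_cases a t n (run a t n) with h1 | ⟨e', c, hte, hdead, hf, h1⟩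
    · refine ⟨p, fun q hq hqe hqp => ?_⟩
      rw [run_succ, h1] at hq
      exact dead_mono a n (n + 1) _ (by omega) (hp q hq hqe hqp)
    · by_cases hee : e' = e
      · subst hee
        refine ⟨c, fun q hq hqe hqp => ?_⟩
        rw [run_succ, h1, List.mem_cons] at hq
        rcases hq with rfl | hq
        · exact absurd rfl hqp
        · exact dead_mono a n (n + 1) _ (by omega) (hdead q hq hqe)
      · refine ⟨p, fun q hq hqe hqp => ?_⟩
        rw [run_succ, h1, List.mem_cons] at hq
        rcases hq with rfl | hq
        · exact absurd hqe hee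
        · exact dead_mono a n (n + 1) _ (by omega) (hp q hq hqe hqp)

theorem INV_proof : S_INV := by
  intro a t
  exact ⟨dead_mono a, run_suffix a t, run_nodup a t, run_inv a t, run_five a t⟩

end Pool.Agent.H654R5.PT.INV
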